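import Pool.Agent.MP_249f74_an.H91.Cf

/-!
Finite classes of the tangent complex of a developable mirror.
-/

open MvPolynomial Matrix

namespace Pool.Agent.MP_249f74_an.H91

open H17.Cm (grad)
open H32 (Mir)
open H18 (TP Tn Dev Hs)

variable (k C ι : Type) [Field k] [Algebra k ℝ] [Field C] [Algebra k C] [Fintype ι] [DecidableEq ι]

/-- A good orthogonal hyperplane makes the bad hyperplanes orthogonal. -/
def CORE : Prop :=
  ∀ (m m' : Mir k C ι) (Ω : Type) [Field Ω] [Algebra C Ω] (x y p u v : ι → Ω), Dev m'.f → m.On x →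
    m'.On y → m'.On p → grad m'.f y ⬝ᵥ (x - y) = 0 → grad m'.f p ⬝ᵥ (x - p) = 0 →
    grad m'.f y ⬝ᵥ grad m.f x = 0 → grad m.f x ⬝ᵥ u = 0 → grad m'.f y ⬝ᵥ u = 0 →
    Hs m.f x u u ≠ 0 → grad m'.f p ⬝ᵥ v = 0 → grad m.f x ⬝ᵥ v ≠ 0 →
    (∀ a, grad m.f x ⬝ᵥ a = 0 → grad m'.f p ⬝ᵥ a = 0 → Hs m.f x a a = 0) →
    grad m'.f p ⬝ᵥ grad m.f x = 0

variable {k C ι} [IsAlgClosed C] [CharZero C]

omit [DecidableEq ι] in
lemma not_tn {m m' : Mir k C ι} {P : MvPolynomial (ι ⊕ ι) C} (hne : m ≠ m') (hP : TP m' P) :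
    ¬Tn m.f P := fun h => by
  obtain ⟨B, _, _, _, -, l, -, hl⟩ := H18.exists_tl m
  have : CharZero B := charZero_of_injective_algebraMap (algebraMap C B).injective
  obtain ⟨t, h1⟩ := H27.tl_iff.1 hl
  obtain ⟨s, h2⟩ := H27.tl_iff.1 (hP.tl hl.1 (h.tl hP.lin hl))
  exact hne (h1.uniq h2).1

theorem dev_of (hc : CORE k C ι) : H18.DEV k C ι := by
  intro m m' H P _ hd hne hH hP hb
  refine .inl (.inr (.inl (warp_of_ort hne hd hH.lin hH.tn fun Ω _ _ x p hx hp h0 h1 h2 => ?_)))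
  obtain ⟨B, _, _, φ, u, y, a1, a2, a3, a4, a5, a6, v, a7, a8⟩ :=
    goodk hP hd hb (not_tn hne hP) hx
  have : CharZero B := charZero_of_injective_algebraMap (algebraMap C B).injective
  have hx' := on_hom hx φ
  have hp' := on_hom hp φ
  have e : φ ∘ x - φ ∘ p = φ ∘ (x - p) := funext fun i => (map_sub φ _ _).symm
  have b0 : grad m'.f (φ ∘ p) ⬝ᵥ (φ ∘ x - φ ∘ p) = 0 := by rw [e, grad_hom, dot_hom, h0, map_zero]
  have b1 : grad m.f (φ ∘ x) ⬝ᵥ (φ ∘ x - φ ∘ p) ≠ 0 := by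
    rwa [e, grad_hom, dot_hom, _root_.map_ne_zero]
  have b2 := (fo hx' hH.lin hH.ne hH.iv (a6.trans (map_dvd _ (hP.dvd hH.lin hH.tn))) a1.grad_ne
    (fun D => dev_fix hd hx' a1 a2 a7 a8) a7 a8).resolve_right fun h => a5 (h u a4 a3)
  have b3 : H65.lin (grad m'.f (φ ∘ p)) ∣ H65.pen (φ ∘ x) H := by
    rw [pen_hom, grad_hom]
    simpa [H65.lin] using map_dvd (MvPolynomial.map (φ : Ω →+* B)) h2
  have b4 := (fo hx' hH.lin hH.ne hH.iv b3 hp'.grad_ne (fun D => dev_fix hd hx' hp' b0 b0 b1) b0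
    b1).elim id (hc m m' B _ y _ u _ hd hx' a1 hp' a2 b0 b2 a4 a3 a5 b0 b1)
  rwa [grad_hom, grad_hom, dot_hom, map_eq_zero] at b4

end Pool.Agent.MP_249f74_an.H91
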