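import Pool.Agent.MP_249f74_an.H91.Fo
import Pool.Agent.MP_249f74_an.H74.Hom

/-!
Sections of a mirror by the tangent hyperplanes of a developable mirror.
-/

open MvPolynomial Set
open Matrix hiding J vec

namespace Pool.Agent.MP_249f74_an.H91

open H17.Cm (grad dv dv_dot dv_sub dv_smul grad_dv tv hat vec Warp)
open H32 (Mir)
open H65 (Lin lin pen)
open H18 (Tn Dev Hs)
open H27 (hess on_free)
open H74 (Cfg Fr Hyp deh af)
open H88 (cl subset_cl)

variable {k C Ω ι : Type} [Field k] [Algebra k ℝ] [Field C] [Algebra k C] [Field Ω] [Algebra C Ω]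
  [Fintype ι] [DecidableEq ι] {m m' : Mir k C ι} {H : MvPolynomial (ι ⊕ ι) C}

/-- All lines in a tangent hyperplane are tangent lines. -/
theorem lin_dvd [CharZero C] (hd : Dev m'.f) {x p : ι → Ω} (hx : m.On x) (hp : m'.On p)
    (h0 : grad m'.f p ⬝ᵥ (x - p) = 0) (h2 : grad m.f x ⬝ᵥ (x - p) ≠ 0)
    (fr : ∀ w, grad m.f x ⬝ᵥ w = 0 → grad m'.f p ⬝ᵥ w = 0 →
      ∃ θ : Derivation C Ω Ω, dv θ p = 0 ∧ dv θ x = w)
    {t : Ω} {θ : Derivation C Ω Ω} (t1 : dv θ x = 0) (t2 : dv θ p = 0) (t3 : θ t = 1)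
    (hl : Lin H) (ht : Tn m'.f H) : lin (grad m'.f p) ∣ pen x H := by
  have : CharZero Ω := charZero_of_injective_algebraMap (algebraMap C Ω).injective
  have t0 : t ≠ 0 := fun e => by simp [e] at t3
  have key : ∀ D : Derivation C Ω Ω,
      Hs m'.f p (x - p) (dv D p) + grad m'.f p ⬝ᵥ dv D x = 0 := fun D => by
    have := dv_dot D (grad m'.f p) (x - p)
    rw [h0, map_zero, dv_sub, dotProduct_sub _ (dv D x), grad_dv hp.zero, sub_zero,
      H27.dv_grad_eq, ← hs_eq] at this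
    exact this.symm
  have hh : Hs m'.f p (x - p) (x - p) ≠ 0 := fun e => by
    obtain ⟨w, w1, w2⟩ := H74.exists_sep (T := grad m.f x) (K := grad m'.f p) fun s e => by
      rw [e, smul_dotProduct, smul_eq_mul, mul_eq_zero, or_iff_left h2] at h0
      exact hp.grad_ne (by rw [e, h0, zero_smul])
    obtain ⟨D, rfl⟩ := on_free hx w1
    have h3 := hd Ω p _ _ hp.zero hp.grad_ne h0 (grad_dv (θ := D) hp.zero)
    have h4 := key D
    rw [e, zero_mul, eq_comm, pow_eq_zero_iff two_ne_zero] at h3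
    simp [h3, w2] at h4
  obtain ⟨e, he⟩ := Function.ne_iff.1 hp.grad_ne
  have he' : grad m'.f p e ≠ 0 := he
  let K := cl C (range x ∪ range fun j => grad m'.f p j / grad m'.f p e)
  let x' : ι → K := fun i => ⟨x i, subset_cl _ (.inl ⟨i, rfl⟩)⟩
  let ν : ι → K := fun j => ⟨grad m'.f p j / grad m'.f p e, subset_cl _ (.inr ⟨j, rfl⟩)⟩
  have h12 : grad m'.f p = grad m'.f p e • (K.val ∘ ν) := funext fun j =>
    (mul_div_cancel₀ _ he').symm
  have h3 : grad m'.f p ⬝ᵥ (t • (p - x)) = 0 := by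
    rw [dotProduct_smul, ← neg_sub, dotProduct_neg, h0, neg_zero, smul_zero]
  have h4 : H74.GenK (lin ν) (t • (p - x)) := by
    refine H74.genK_of_sur (H65.lin_prime fun e => hp.grad_ne (by rw [h12, e]; ext; simp)) ?_
      hp.grad_ne fun w hw => ?_
    · rw [h12, smul_dotProduct, smul_eq_mul, mul_eq_zero, or_iff_right he'] at h3
      rw [H65.aeval_lin]; exact h3
    obtain ⟨a, ha⟩ : ∃ a, a = Hs m'.f p (x - p) w / Hs m'.f p (x - p) (x - p) := ⟨_, rfl⟩
    obtain ⟨D0, d0⟩ := on_free hp (w := t⁻¹ • (w - a • (x - p))) (by simp [hw, h0])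
    obtain ⟨D1, d1, d2⟩ := fr _ (grad_dv (θ := D0) hx.zero) (by
      have := key D0
      rwa [d0, hs_eq, H27.hess_symm, dotProduct_smul, dotProduct_sub, dotProduct_smul,
        H27.hess_symm, ← hs_eq, ← hs_eq, ha, smul_eq_mul, smul_eq_mul, div_mul_cancel₀ _ hh,
        sub_self, mul_zero, zero_add] at this)
    obtain ⟨D, hD⟩ : ∃ D, D = D0 - D1 + (-a - (D0 - D1) t) • θ := ⟨_, rfl⟩
    have e1 : dv D x = 0 := funext fun i => by
      simp [hD, dv, show θ (x i) = 0 from congrFun t1 i, show D1 (x i) = D0 (x i) from congrFun d2 i]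
    have e2 : dv D p = t⁻¹ • (w - a • (x - p)) := funext fun i => by
      simp [hD, dv, show θ (p i) = 0 from congrFun t2 i, show D1 (p i) = 0 from congrFun d1 i,
        show D0 (p i) = _ from congrFun d0 i]
    have e3 : D t = -a := by simp [hD, t3]
    obtain ⟨c, hc⟩ := dev_fix hd hx hp h0 h0 h2 (D := D) (by rw [e1, dotProduct_zero])
    refine ⟨H17.toDer (D.restrictScalars ℤ) fun c => H17.kill_cl ?_ c.2, ?_⟩
    · rintro _ (⟨i, rfl⟩ | ⟨j, rfl⟩)
      · exact congrFun e1 i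
      · rw [Derivation.leibniz_div, show D (grad m'.f p j) = _ from congrFun hc j,
          show D (grad m'.f p e) = _ from congrFun hc e]
        simp only [Pi.smul_apply, smul_eq_mul]
        ring
    · change dv D _ = w
      rw [dv_smul, dv_sub, e1, e2, e3, sub_zero, smul_smul, mul_inv_cancel₀ t0]
      ext i; simp; ring
  have h5 := (h4 (pen x' H)).1 (by
    rw [H65.aeval_pen]
    refine (hl.tr x _ t⁻¹).symm.trans (Eq.trans ?_ (ht Ω p _ hp.zero hp.grad_ne h3))
    congr 2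
    ext i; simp [t0])
  rw [show pen x H = _ from pen_hom K.val x' H, h12]
  refine Dvd.dvd.trans ⟨MvPolynomial.C (grad m'.f p e)⁻¹, ?_⟩
    (map_dvd (MvPolynomial.map (K.val : K →+* Ω)) h5)
  rw [show lin (grad m'.f p e • (K.val ∘ ν)) = _ from H65.lin_mul _ _, mul_right_comm, ← map_mul,
    mul_inv_cancel₀ he']
  simp [lin]

/-- Orthogonality along all sections gives a warped pair. -/
theorem warp_of_ort [IsAlgClosed C] [CharZero C] (hne : m ≠ m') (hd : Dev m'.f) (hl : Lin H)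
    (ht : Tn m'.f H) (h : ∀ (Ω : Type) [Field Ω] [Algebra C Ω] (x p : ι → Ω), m.On x → m'.On p →
      grad m'.f p ⬝ᵥ (x - p) = 0 → grad m.f x ⬝ᵥ (x - p) ≠ 0 → lin (grad m'.f p) ∣ pen x H →
      grad m'.f p ⬝ᵥ grad m.f x = 0) : Warp m.f m'.f := by
  obtain ⟨F, hF, eF⟩ := H74.homog m.prime m.deg
  obtain ⟨G, hG, eG⟩ := H74.homog m'.prime m'.deg
  have ne : ¬G ∣ F := fun e => hne (H32.Mir.ext_of_associated
    (m'.prime.associated_of_dvd m.prime (eF ▸ eG ▸ map_dvd deh e)).symm)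
  obtain ⟨K, _, -, _, -, -, y, hy⟩ := H74.gen0 (C := C) hG.prime
  have : CharZero K := charZero_of_injective_algebraMap (algebraMap C K).injective
  rw [← eF, ← eG]
  refine H74.Wh.warp (H74.nform hF hG hy fun K1 K2 k1 k2 => ?_) hG
  have e : ∀ K : Option ι → C, H74.dd (H17.Cm.J ι C *ᵥ K) F =
      ∑ o, MvPolynomial.C (K o) * vec (fun i => pderiv (some i) F) o := fun K => by
    simp [H17.Cm.J_mulVec, H74.dd, vec, H17.Cm.sp]
  rw [e, e]
  refine H74.ort hF hG ne _ (fun Ω _ _ _ _ q y c ⟨t, θ, t1, t2, t3⟩ => ?_) k1 k2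
  have q0 := c.gq.q0 hF
  have y0 := c.gy.q0 hG
  have hx : m.On (af q) := fun P => eF ▸ c.gq.aff hF P
  have hp : m'.On (af y) := fun P => eG ▸ c.gy.aff hG P
  have gF := c.gq.grad_eq hF
  have gG := c.gy.grad_eq hG
  rw [eF] at gF
  rw [eG] at gG
  have a0 : grad m'.f (af y) ⬝ᵥ (af q - af y) = 0 := by
    have := c.hq
    nth_rewrite 1 [← H74.hat_af q0] at this
    rw [gG, smul_dotProduct, dotProduct_smul, dotProduct_comm, H17.Cm.hat_tv] at this
    simpa [-dotProduct_sub, q0, y0] using this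
  have a1 : grad m.f (af q) ⬝ᵥ (af q - af y) ≠ 0 := fun e => c.ty hF hG ne (by
    nth_rewrite 1 [← H74.hat_af y0]
    rw [gF, smul_dotProduct, dotProduct_smul, dotProduct_comm, H17.Cm.hat_tv,
      ← neg_sub, dotProduct_neg, e, neg_zero, smul_zero, smul_zero])
  have kf : ∀ {z : Option ι → Ω} {θ : Derivation C Ω Ω} {w : ι → Ω}, z none ≠ 0 →
      H90.dv z θ = z none • vec w → dv θ (af z) = w := fun {z θ w} z0 hz => funext fun i => by
    have h1 : θ (z none) = _ := congrFun hz none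
    have h2 : θ (z (some i)) = _ := congrFun hz (some i)
    simp [dv, af, H17.Cm.sp, Derivation.leibniz_inv, h1, h2, vec, z0]
  have v0 : ∀ s : Ω, (0 : Option ι → Ω) = s • vec 0 := fun s => by ext (_ | i) <;> simp [vec]
  have a2 := h Ω _ _ hx hp a0 a1 (lin_dvd hd hx hp a0 a1 (fun w w1 w2 => by
    obtain ⟨θ, b1, b2⟩ := c.free (q none • vec w)
      (by rw [gF, smul_dotProduct, dotProduct_smul, dotProduct_comm, H17.Cm.vec_dot, H17.Cm.sp_tv,
        dotProduct_comm, w1, smul_zero, smul_zero])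
      (by rw [gG, smul_dotProduct, dotProduct_smul, dotProduct_comm, H17.Cm.vec_dot, H17.Cm.sp_tv,
        dotProduct_comm, w2, smul_zero, smul_zero])
    exact ⟨θ, kf y0 (b1.trans (v0 _)), kf q0 b2⟩)
    (kf q0 (t1.trans (v0 _))) (kf y0 (t2.trans (v0 _))) t3 hl ht)
  rw [show (fun o => aeval q (vec (fun i => pderiv (some i) F) o)) = vec (H17.Cm.sp (grad F q)) by
    ext (_ | i) <;> simp [vec, grad, H17.Cm.sp], dotProduct_comm, H17.Cm.vec_dot, gF, gG,
    H17.Cm.sp_smul, H17.Cm.sp_smul, H17.Cm.sp_tv, H17.Cm.sp_tv, smul_dotProduct, dotProduct_smul,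
    dotProduct_comm, a2, smul_zero, smul_zero]

end Pool.Agent.MP_249f74_an.H91
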