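import Pool.Agent.MP_249f74_an.H91.GoodK

/-!
Linear factors of an invariant line polynomial.
-/

open MvPolynomial Matrix

namespace Pool.Agent.MP_249f74_an.H91

open H17.Cm (grad dv)
open H32 (Mir)
open H65 (Lin lin pen Sq mkD pr zz)
open H18 (Iv Hs)

/-- Prime factors of an invariant function are invariant under the geodesic derivation. -/
theorem fo_abs {k A : Type} [CommRing k] [CommRing A] [Algebra k A] [IsDomain A] [Algebra ℚ A]
    [WfDvdMonoid A] {D : Derivation k A A} {g l : A} (hg : Prime g) (π R : A →+* A)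
    (hπ : ∀ a, g ∣ π a - a) (πg : π g = 0) (Rg : R g = -g) (Ra : ∀ a, g ∣ R a - a)
    (Z : Derivation k A A) (Zg : Z g = 1) (ZR : ∀ a, Z (R a) = -R (Z a)) {s : ℕ → A}
    (h : Sq D g s) (s0 : s 0 ≠ 0) (hR : R (s 0) = s 0) (hl : Prime l) (hl' : Prime (π l))
    (hd : l ∣ s 0) : π l ∣ π (D g) ∨ π l ∣ π (D l - D g * Z l) := by
  have k0 : ∀ {a}, π a = 0 ↔ g ∣ a := fun {a} =>
    ⟨fun e => by simpa [e] using hπ a, fun ⟨b, e⟩ => by rw [e, map_mul, πg, zero_mul]⟩
  have pp : ∀ a, π (π a) = π a := fun a => by rw [← sub_eq_zero, ← map_sub, k0]; exact hπ a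
  by_cases hD : g ∣ D g
  · exact .inl (by rw [k0.2 hD]; exact dvd_zero _)
  obtain ⟨m, E, hE, e⟩ := WfDvdMonoid.max_power_factor s0 hg.irreducible
  have hm := H65.par hg hD m h e hE
  rw [e, map_mul, map_pow, Rg, hm.neg_pow] at hR
  have h1 := mul_left_cancel₀ (pow_ne_zero m hg.ne_zero) hR
  obtain ⟨j, rfl⟩ := hm.two_dvd
  have h2 := k0.2 ((hg.dvd_or_dvd (H65.laz hg.ne_zero j h e)).resolve_left
    fun h => hD (hg.dvd_of_dvd_pow h))
  have h3 : π (Z E) = 0 := k0.2 (H65.dvd_of_nat (n := 2) two_ne_zero (by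
    have := ZR E
    rw [h1] at this
    convert (Ra (Z E)).neg_right using 1
    push_cast
    linear_combination this))
  have h4 : l ∣ E := (hl.dvd_or_dvd (e ▸ hd)).resolve_left fun h => hl'.ne_zero
    (k0.2 (hl.associated_of_dvd hg (hl.dvd_of_dvd_pow h)).symm.dvd)
  obtain ⟨a, E', hE', e'⟩ := WfDvdMonoid.max_power_factor (fun e => hE (k0.1 e)) hl'.irreducible
  rcases a with _ | a
  · exact absurd (by simpa [e'] using map_dvd π h4) hE'
  have h5 : π E' = E' := mul_left_cancel₀ (pow_ne_zero (a + 1) hl'.ne_zero) (by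
    rw [← e', ← pp E, e', map_mul, map_pow, pp])
  obtain ⟨c, hc⟩ := k0.1 (show π (E - l ^ (a + 1) * E') = 0 by
    rw [map_sub, map_mul, map_pow, h5, e', sub_self])
  have h6 := congrArg (fun b => π (D b - D g * Z b)) (sub_eq_iff_eq_add.1 hc)
  simp only [map_add, map_sub, map_mul, Derivation.leibniz, Derivation.leibniz_pow, smul_eq_mul,
    nsmul_eq_mul, map_pow, map_natCast, πg, Zg, h3, h5, map_one, Nat.add_one_sub_one] at h6
  simp only [map_add, map_mul, map_ofNat, map_natCast, e'] at h2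
  have h7 : ((3 * (a + 1) : ℕ) : A) * (π (D g) * (π (D l - D g * Z l) * E')) = π l *
      -(3 * π (D g) * π (D E' - D g * Z E') + 2 * j * E' * π (D (D g))) :=
    mul_left_cancel₀ (pow_ne_zero a hl'.ne_zero) (by
      simp only [map_sub, map_mul]
      push_cast at h6 ⊢
      linear_combination h2 - 3 * π (D g) * h6)
  exact (hl'.dvd_or_dvd (H65.dvd_of_nat (by omega) ⟨_, h7⟩)).imp_right
    fun h => (hl'.dvd_or_dvd h).resolve_right hE'

variable {k C Ω ι : Type} [Field k] [Algebra k ℝ] [Field C] [Algebra k C] [Field Ω] [Algebra C Ω]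
  [Fintype ι] [DecidableEq ι] {m : Mir k C ι} {H : MvPolynomial (ι ⊕ ι) C}

lemma sq {x w : ι → Ω} {e : ι} {d : ι → Derivation C Ω Ω}
    (dq : ∀ i j, d j (x i) = (if i = j then 1 else 0) - if i = e then w j else 0) (h : Lin H) :
    Sq (mkD d X 0) (lin w) fun i => pen x ((pderiv (Sum.inl e))^[i] H) := by
  have h0 : ∀ i, lin (fun j => d j (x i)) = X i - if i = e then lin w else 0 := fun i => by
    by_cases h : i = e <;> simp [lin, dq, h, sub_mul, Finset.sum_sub_distrib, apply_ite]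
  have h1 : ∀ F : MvPolynomial (ι ⊕ ι) C, Lin F →
      mkD d X 0 (pen x F) = -lin w * pen x (pderiv (Sum.inl e) F) := fun F h => by
    rw [pen, H65.chain_ev]
    simp only [H65.mkD_C', H65.mkD_X, h0, mul_sub, Finset.sum_sub_distrib, h.ev]
    simp [mul_comm]
  intro i
  simp only [Function.iterate_succ_apply']
  refine h1 _ ?_
  induction i with
  | zero => exact h
  | succ i ih => rw [Function.iterate_succ_apply']; exact ih.pderiv e

omit [DecidableEq ι] in
lemma sum_der (a : ι → Ω) (d : ι → Derivation C Ω Ω) (z : Ω) :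
    (∑ j, a j • d j) z = ∑ j, a j * d j z := by
  have := map_sum (Derivation.coeFnAddMonoidHom (R := C) (A := Ω) (M := Ω)) (fun j => a j • d j)
    Finset.univ
  exact (congrFun this z).trans (Finset.sum_apply ..)

omit [DecidableEq ι] in
lemma aeval_mkD (a n : ι → Ω) (d : ι → Derivation C Ω Ω) :
    aeval a (mkD d X 0 (lin n)) = dv (∑ j, a j • d j) n ⬝ᵥ a := by
  rw [H65.mkD_lin]
  simp [lin, dv, dotProduct, sum_der, mul_comm]

/-- A hyperplane of zeros is orthogonal to the mirror or cuts it in asymptotic directions. -/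
theorem fo [CharZero C] {x n v : ι → Ω} (hx : m.On x) (hl : Lin H) (H0 : H ≠ 0) (hi : Iv m.f H)
    (hd : lin n ∣ pen x H) (hn : n ≠ 0)
    (hk : ∀ D : Derivation C Ω Ω, n ⬝ᵥ dv D x = 0 → ∃ a : Ω, dv D n = a • n) (h1 : n ⬝ᵥ v = 0)
    (h2 : grad m.f x ⬝ᵥ v ≠ 0) : n ⬝ᵥ grad m.f x = 0 ∨
      ∀ a, grad m.f x ⬝ᵥ a = 0 → n ⬝ᵥ a = 0 → Hs m.f x a a = 0 := by
  have : CharZero Ω := charZero_of_injective_algebraMap (algebraMap C Ω).injective
  obtain ⟨B, _, _, _, _, _, y0, t0, pc⟩ := ex_pc hx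
  have : CharZero B := charZero_of_injective_algebraMap (algebraMap C B).injective
  obtain ⟨e, he⟩ := Function.ne_iff.1 hx.grad_ne
  set N := grad m.f x with hN
  have he' : N e ≠ 0 := he
  obtain ⟨w, hw⟩ : ∃ w : ι → Ω, w = fun i => N i / N e := ⟨_, rfl⟩
  have Nw : N = N e • w := funext fun i => by simp [hw, mul_div_cancel₀ _ he']
  have we : w e = 1 := by simp [hw, he']
  have wN : ∀ a, N ⬝ᵥ a = 0 ↔ w ⬝ᵥ a = 0 := fun a => by
    rw [Nw, smul_dotProduct, smul_eq_mul, mul_eq_zero, or_iff_right he']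
  have nw : ∑ i, w i ^ 2 ≠ 0 := fun e => hx.nn (by
    rw [← hN, Nw, dotProduct_smul, smul_dotProduct,
      show w ⬝ᵥ w = 0 by simpa [dotProduct, pow_two] using e, smul_zero, smul_zero])
  choose d hd' using fun j => H27.on_free hx
    (w := fun i => (if i = j then 1 else 0) - if i = e then w j else 0)
    ((wN _).2 (by simp [dotProduct, mul_sub, we]))
  have dq : ∀ i j, d j (x i) = _ := fun i j => congrFun (hd' j) i
  have s1 : ∑ i, w i * (w i / ∑ j, w j ^ 2) = 1 := by
    simp only [← mul_div_assoc, ← pow_two, ← Finset.sum_div, div_self nw]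
  have Zl : ∀ n : ι → Ω, zz w (lin n) = MvPolynomial.C (∑ i, n i * (w i / ∑ j, w j ^ 2)) :=
    fun n => by rw [lin, map_sum, map_sum]; simp
  have Rg : H65.rf w (lin w) = -lin w := by
    rw [H65.rf, H65.aeval_lin]
    simp only [algebraMap_eq, mul_sub, Finset.sum_sub_distrib, ← mul_assoc, ← map_mul,
      ← Finset.sum_mul, ← map_sum]
    rw [show ∑ i, w i * (2 * w i / ∑ j, w j ^ 2) = 2 by
      simp only [mul_div_assoc, mul_left_comm _ (2 : Ω), ← Finset.mul_sum, s1, mul_one],
      ← lin, map_ofNat]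
    ring
  have ZR : ∀ a, zz w (H65.rf w a) = -H65.rf w (zz w a) := fun a => by
    refine H65.der_ext (H65.rf w).toRingHom (fun a => zz w (H65.rf w a))
      (fun a => -H65.rf w (zz w a)) (by simp) (fun a b => by simp; ring) (by simp)
      (fun a b => by simp; ring) (by simp) (fun i => ?_) a
    rw [H65.rf, aeval_X, ← H65.rf, map_sub, Derivation.leibniz, Zl, s1, H65.zz_X, H65.zz_C,
      H65.rf_C, mul_div_assoc, map_mul, map_ofNat]
    simp
    ring
  have hR : H65.rf w (pen x H) = pen x H := MvPolynomial.funext fun u => by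
    have := hi Ω x u hx.zero hx.nn
    rw [← hN, Nw, H17.Cm.smul_rf he'] at this
    exact ((H65.aeval_rf w u _).trans ((H65.aeval_pen ..).trans this)).trans
      (H65.aeval_pen x u H).symm
  have hp : Prime (pr e w (lin n)) := by
    rw [H65.pr_lin, ← H65.lin_mul, sub_eq_iff_eq_add.2 ((congrArg lin
      (funext fun i => (sub_add_cancel (n i) (n e * w i)).symm)).trans (H65.lin_add _ _))]
    refine H65.lin_prime fun e0 => ?_
    have e1 : n = n e • w := funext fun i => sub_eq_zero.1 (congrFun e0 i)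
    rw [e1, smul_dotProduct, smul_eq_mul, mul_eq_zero, or_iff_left (mt (wN v).2 h2)] at h1
    exact hn (by rw [e1, h1, zero_smul])
  have key := fo_abs (H65.lin_prime (m := w) fun e => by simp [e] at we) (pr e w).toRingHom
    (H65.rf w).toRingHom (H65.pr_sub e w) (by simp [H65.pr_lin, we]) Rg H65.Gr.rf_sub
    ((zz w).restrictScalars C) (by rw [Derivation.restrictScalars_apply, Zl, s1, map_one]) ZR
    (sq dq hl) (pc.pen_ne hl H0) hR (H65.lin_prime hn) hp hd
  refine or_iff_not_imp_left.2 fun h0 a a1 a2 => ?_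
  have a3 := (wN a).1 a1
  have ev : ∀ b, aeval a (pr e w b) = aeval a b := fun b => by
    obtain ⟨c, hc⟩ := H65.pr_sub e w b
    rw [← sub_eq_zero, ← map_sub, hc, map_mul, H65.aeval_lin,
      show ∑ i, algebraMap Ω Ω (w i) * a i = 0 from a3, zero_mul]
  have z : ∀ b, pr e w (lin n) ∣ pr e w b → aeval a b = 0 := fun b ⟨c, hc⟩ => by
    rw [← ev, hc, map_mul, ev, H65.aeval_lin, show ∑ i, algebraMap Ω Ω (n i) * a i = 0 from a2,
      zero_mul]
  have da : dv (∑ j, a j • d j) x = a := funext fun i => by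
    have : ∑ j, a j * w j = 0 := (dotProduct_comm a w).trans a3
    simp [dv, sum_der, dq, mul_sub, this]
  have h3 : aeval a (mkD d X 0 (lin w)) = 0 := key.elim (z _) fun h => by
    have h4 := z _ h
    obtain ⟨c, hc⟩ := hk (∑ j, a j • d j) (by rwa [da])
    rw [map_sub, aeval_mkD, hc, smul_dotProduct, a2, smul_zero, zero_sub, neg_eq_zero, map_mul,
      Derivation.restrictScalars_apply, Zl, aeval_C, mul_eq_zero] at h4
    refine h4.resolve_right fun e => h0 ?_
    simp only [← mul_div_assoc, ← Finset.sum_div, Algebra.algebraMap_self, RingHom.id_apply,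
      div_eq_zero_iff, nw, or_false] at e
    rw [Nw, dotProduct_smul, show n ⬝ᵥ w = 0 from e, smul_zero]
  rw [hs_eq, ← congrArg (H27.hess m.f x) da, ← H27.dv_grad_eq, ← hN, Nw, H17.Cm.dv_smul,
    add_dotProduct, smul_dotProduct, smul_dotProduct, a3, ← aeval_mkD, h3]
  simp

end Pool.Agent.MP_249f74_an.H91
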