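import Pool.Agent.MP_249f74_an.H18.Base
import Pool.Agent.MP_249f74_an.H65.Gp
import Pool.Agent.MP_249f74_an.H74.Lin

/-!
A tangent hyperplane of a developable mirror that contains a good tangent direction.
-/

open MvPolynomial Matrix TensorProduct

namespace Pool.Agent.MP_249f74_an.H91

open H17.Cm (grad dv dv_dot dv_sub grad_dv)
open H32 (Mir pos dir pt edge St Tl)
open H42 (Gen Cur)
open H65 (Lin lin pen Pc)
open H18 (TP Tn Dev Bad Hs)
open H27 (hess on_free)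

variable {C ι : Type} [Field C]

/-- Two generic points of a variety become equal in a common extension. -/
theorem amalg {B1 B2 : Type} [Field B1] [Field B2] [Algebra C B1] [Algebra C B2] {x1 : ι → B1}
    {x2 : ι → B2} (h : ∀ P : MvPolynomial ι C, aeval x1 P = 0 ↔ aeval x2 P = 0) :
    ∃ (K : Type) (_ : Field K) (_ : Algebra C K) (_ : IsAlgClosed K) (f1 : B1 →ₐ[C] K)
      (f2 : B2 →ₐ[C] K), ∀ i, f1 (x1 i) = f2 (x2 i) := by
  let I := RingHom.ker (aeval x1 : MvPolynomial ι C →ₐ[C] B1)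
  let R := MvPolynomial ι C ⧸ I
  let a1 : R →ₐ[C] B1 := Ideal.Quotient.liftₐ I (aeval x1) fun _ hP => hP
  let a2 : R →ₐ[C] B2 := Ideal.Quotient.liftₐ I (aeval x2) fun P hP => (h P).1 hP
  let _ := a1.toRingHom.toAlgebra
  let _ := a2.toRingHom.toAlgebra
  have : Nontrivial (B1 ⊗[R] B2) :=
    Algebra.TensorProduct.nontrivial_of_algebraMap_injective_of_isDomain R B1 B2
      (RingHom.lift_injective_of_ker_le_ideal I (fun _ hP => hP) le_rfl)
      (RingHom.lift_injective_of_ker_le_ideal I (fun P hP => (h P).1 hP) fun P hP => (h P).2 hP)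
  obtain ⟨M, hM⟩ := Ideal.exists_maximal (B1 ⊗[R] B2)
  let _ := Ideal.Quotient.field M
  let K := AlgebraicClosure (B1 ⊗[R] B2 ⧸ M)
  let ψ : B1 ⊗[R] B2 →+* K := (algebraMap _ K).comp (Ideal.Quotient.mk M)
  let g1 : B1 →+* K := ψ.comp Algebra.TensorProduct.includeLeftRingHom
  let g2 : B2 →+* K := ψ.comp (Algebra.TensorProduct.includeRight (R := R)).toRingHom
  have e : ∀ r : R, g1 (a1 r) = g2 (a2 r) := fun r => congrArg ψ
    (((Algebra.TensorProduct.includeLeft (S := R)).commutes r).trans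
      (Algebra.TensorProduct.includeRight.commutes r).symm)
  let _ : Algebra C K := (g1.comp (algebraMap C B1)).toAlgebra
  refine ⟨K, inferInstance, inferInstance, inferInstance, ⟨g1, fun _ => rfl⟩, ⟨g2, fun c => ?_⟩,
    fun i => ?_⟩
  · have := e (algebraMap C R c)
    rw [a1.commutes, a2.commutes] at this
    exact this.symm
  · have := e (Ideal.Quotient.mk I (X i))
    rwa [show a1 _ = x1 i from aeval_X x1 i, show a2 _ = x2 i from aeval_X x2 i] at this

variable {k K Ω : Type} [Field k] [Algebra k ℝ] [Algebra k C] [Field K] [Field Ω] [Algebra C K]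
  [Algebra C Ω] [Fintype ι] {m m' : Mir k C ι} {P : MvPolynomial (ι ⊕ ι) C}

omit [Fintype ι] in
lemma aeval_hom (φ : K →ₐ[C] Ω) (x : ι → K) (F : MvPolynomial ι C) :
    aeval (φ ∘ x) F = φ (aeval x F) := (comp_aeval_apply x φ F).symm

lemma on_hom {x : ι → K} (h : m.On x) (φ : K →ₐ[C] Ω) : m.On (φ ∘ x) := fun F => by
  rw [aeval_hom, map_eq_zero, h]

omit [Fintype ι] in
lemma grad_hom (φ : K →ₐ[C] Ω) (x : ι → K) (F : MvPolynomial ι C) :
    grad F (φ ∘ x) = φ ∘ grad F x := funext fun _ => aeval_hom φ x _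

lemma dot_hom (φ : K →ₐ[C] Ω) (a b : ι → K) : (φ ∘ a) ⬝ᵥ (φ ∘ b) = φ (a ⬝ᵥ b) := by
  simp [dotProduct]

lemma hs_hom (φ : K →ₐ[C] Ω) (F : MvPolynomial ι C) (x a b : ι → K) :
    Hs F (φ ∘ x) (φ ∘ a) (φ ∘ b) = φ (Hs F x a b) := by simp [Hs, aeval_hom]

omit [Fintype ι] in
lemma pen_hom (φ : K →ₐ[C] Ω) (x : ι → K) (F : MvPolynomial (ι ⊕ ι) C) :
    pen (φ ∘ x) F = MvPolynomial.map (φ : K →+* Ω) (pen x F) := by
  have := H65.map_ev (mapAlgHom φ) (fun i => MvPolynomial.C (x i)) X F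
  simpa [pen] using this.symm

lemma hs_eq (F : MvPolynomial ι C) (x a b : ι → Ω) : Hs F x a b = hess F x b ⬝ᵥ a := by
  simp only [Hs, hess, grad, dotProduct, Finset.sum_mul]
  exact Finset.sum_congr rfl fun _ _ => Finset.sum_congr rfl fun _ _ => by ring

/-- A generic edge through a generic point. -/
theorem ex_pc [CharZero C] {x : ι → K} (h : m.On x) :
    ∃ (Ω : Type) (_ : Field Ω) (_ : Algebra K Ω) (_ : Algebra C Ω) (_ : IsScalarTower C K Ω)
      (_ : IsAlgClosed Ω) (y : ι → Ω) (t : Ω), Pc m x y t := by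
  classical
  obtain ⟨Ω, _, _, _, v, hv⟩ := H96.Pv.exists_ext K (Option ι)
  let _ : Algebra C Ω := ((algebraMap K Ω).comp (algebraMap C K)).toAlgebra
  have : IsScalarTower C K Ω := IsScalarTower.of_algebraMap_eq fun _ => rfl
  have : CharZero Ω := charZero_of_injective_algebraMap (algebraMap C Ω).injective
  have hx := on_hom h (IsScalarTower.toAlgHom C K Ω)
  set x' := IsScalarTower.toAlgHom C K Ω ∘ x with hx'
  have kx : ∀ D : Derivation K Ω Ω, dv (D.restrictScalars C) x' = 0 := fun D =>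
    funext fun i => D.map_algebraMap _
  have hn : grad m.f x' ⬝ᵥ (v ∘ some) ≠ 0 := fun e => by
    obtain ⟨D, hD⟩ := H65.ex_free hv.1 fun o => o.elim 0 (grad m.f x')
    have := dv_dot (D.restrictScalars C) (grad m.f x') (v ∘ some)
    rw [e, map_zero, H17.Cm.dv_grad (kx D), zero_dotProduct, zero_add,
      show dv (D.restrictScalars C) (v ∘ some) = grad m.f x' from funext fun i => hD _] at this
    exact hx.nn this.symm
  have key : ∀ a b : ι → Ω, ∃ D : Derivation C Ω Ω,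
      dv D (edge x' (v ∘ some) (v none)) = Sum.elim a b := fun a b => by
    obtain ⟨s, hs⟩ : ∃ s, s = -(grad m.f x' ⬝ᵥ (a + v none • b)) / grad m.f x' ⬝ᵥ (v ∘ some) :=
      ⟨_, rfl⟩
    obtain ⟨D0, h0⟩ := on_free hx (w := a + v none • b + s • (v ∘ some)) (by
      rw [dotProduct_add, dotProduct_smul, hs, smul_eq_mul, div_mul_cancel₀ _ hn, add_neg_cancel])
    obtain ⟨D, hD⟩ := H65.ex_free hv.1 fun o => o.elim s b - D0 (v o)
    refine ⟨D0 + D.restrictScalars C, funext ?_⟩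
    rintro (i | i)
    · have h1 : D0 (x' i) = _ := congrFun h0 i
      have h2 : D (x' i) = 0 := D.map_algebraMap _
      simp [dv, edge, hD, h1, h2]
      ring
    · simp [dv, edge, hD]
  refine ⟨Ω, _, _, _, ‹_›, ‹_›, v ∘ some, v none, h, hv.1.comp _ (Option.some_injective _),
    H32.gen_iff.2 (H17.Cm.indep_of_dual fun j => ?_)⟩
  obtain ⟨D, hD⟩ := key (fun i => Pi.single (M := fun _ => Ω) j 1 (.inl i))
    fun i => Pi.single (M := fun _ => Ω) j 1 (.inr i)
  exact ⟨D, hD.trans (by ext (i | i) <;> rfl)⟩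

/-- The normal of a developable hypersurface moves in one direction. -/
lemma dev_one {g : MvPolynomial ι C} (hd : Dev g) {p : ι → Ω} (h0 : aeval p g = 0)
    (hn : grad g p ≠ 0) [CharZero Ω] : ∃ h : ι → Ω, ∀ w, grad g p ⬝ᵥ w = 0 →
      ∃ a b : Ω, hess g p w = a • grad g p + b • h := by
  have z : ∀ w, grad g p ⬝ᵥ w = 0 → Hs g p w w = 0 → ∃ a : Ω, hess g p w = a • grad g p :=
    fun w hw e => H74.par1 fun b hb => by
      have := hd Ω p w b h0 hn hw hb
      rw [e, zero_mul, eq_comm, pow_eq_zero_iff two_ne_zero, hs_eq, H27.hess_symm] at this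
      exact this
  by_cases hz : ∀ w, grad g p ⬝ᵥ w = 0 → Hs g p w w = 0
  · exact ⟨0, fun w hw => (z w hw (hz w hw)).imp fun a e => ⟨0, by simp [e]⟩⟩
  push Not at hz
  obtain ⟨w0, h1, h2⟩ := hz
  refine ⟨hess g p w0, fun w hw => H74.par2 fun b hb e => ?_⟩
  obtain ⟨a, ha⟩ := z b hb (by
    have := hd Ω p b w0 h0 hn hb h1
    rw [hs_eq g p b w0, e] at this
    simpa [h2] using this)
  rw [H27.hess_symm, ha, smul_dotProduct, hw, smul_zero]

variable [DecidableEq ι]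

/-- A motion of the point inside the tangent hyperplane does not move the hyperplane. -/
lemma dev_fix [CharZero Ω] (hd : Dev m'.f) {x p v : ι → Ω} (hx : m.On x) (hp : m'.On p)
    (h0 : grad m'.f p ⬝ᵥ (x - p) = 0) (h1 : grad m'.f p ⬝ᵥ v = 0) (h2 : grad m.f x ⬝ᵥ v ≠ 0)
    {D : Derivation C Ω Ω} (hD : grad m'.f p ⬝ᵥ dv D x = 0) :
    ∃ a : Ω, dv D (grad m'.f p) = a • grad m'.f p := by
  obtain ⟨h, hh⟩ := dev_one hd hp.zero hp.grad_ne
  have key : ∀ D : Derivation C Ω Ω, ∃ a b : Ω, dv D (grad m'.f p) = a • grad m'.f p + b • h ∧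
      b * h ⬝ᵥ (x - p) + grad m'.f p ⬝ᵥ dv D x = 0 := fun D => by
    obtain ⟨a, b, e⟩ := hh _ (grad_dv (θ := D) hp.zero)
    rw [← H27.dv_grad_eq] at e
    have := dv_dot D (grad m'.f p) (x - p)
    rw [h0, map_zero, e, dv_sub, dotProduct_sub _ (dv D x), grad_dv hp.zero, add_dotProduct,
      smul_dotProduct, smul_dotProduct, h0] at this
    exact ⟨a, b, e, by simpa using this.symm⟩
  obtain ⟨w, w1, w2⟩ := H74.exists_sep (T := grad m.f x) (K := grad m'.f p) fun s e => by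
    rw [e, smul_dotProduct, smul_eq_mul, mul_eq_zero, or_iff_left h2] at h1
    exact hp.grad_ne (by rw [e, h1, zero_smul])
  obtain ⟨D0, rfl⟩ := on_free hx w1
  obtain ⟨-, b0, -, e0⟩ := key D0
  obtain ⟨a, b, e, e1⟩ := key D
  rw [hD, add_zero, mul_eq_zero, or_iff_left fun e => by simp [e, w2] at e0] at e1
  exact ⟨a, by rw [e, e1, zero_smul, add_zero]⟩

variable [IsAlgClosed C] [CharZero C]

/-- A zero of the equation of the tangent complex lies in a tangent hyperplane. -/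
theorem hyp [IsAlgClosed K] (hP : TP m' P) (hd : Dev m'.f) (r0 : ¬Tn m.f P) {x u : ι → K}
    (hx : m.On x) (hu : H65.ev x u P = 0) :
    ∃ (B : Type) (_ : Field B) (_ : Algebra C B) (_ : IsAlgClosed B) (φ : K →ₐ[C] B) (y : ι → B),
      m'.On y ∧ grad m'.f y ⬝ᵥ (φ ∘ x - y) = 0 ∧ grad m'.f y ⬝ᵥ (φ ∘ u) = 0 ∧
      lin (grad m'.f y) ∣ pen (φ ∘ x) P ∧
      ∃ v, grad m'.f y ⬝ᵥ v = 0 ∧ grad m.f (φ ∘ x) ⬝ᵥ v ≠ 0 := by
  have h1 : ¬lin (grad m.f x) ∣ pen x P := fun ⟨a, e⟩ => r0 (Tn.of_gen hx fun v hv => by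
    have := H65.aeval_pen (k := C) x v P
    rw [e, map_mul, H65.aeval_lin, show ∑ i, algebraMap K K (grad m.f x i) * v i = 0 from hv,
      zero_mul] at this
    exact this.symm)
  obtain ⟨ψ, hψ, h2, h3⟩ := H32.exists_prime (l := u) (F := pen x P)
    (fun e => h1 (e ▸ dvd_zero _)) ((H65.aeval_pen (k := C) x u P).trans hu)
  obtain ⟨B, _, _, _, _, _, y0, t0, pc⟩ := ex_pc hx
  have : CharZero B := charZero_of_injective_algebraMap (algebraMap C B).injective
  obtain ⟨v, s, -, h4, -, -, h5, h6⟩ := pc.cur hψ fun e =>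
    h1 ((hψ.associated_of_dvd (H65.lin_prime hx.grad_ne) e).symm.dvd.trans h2)
  let φ := IsScalarTower.toAlgHom C K B
  have h7 : H42.ev (edge (φ ∘ x) v s) P = 0 := by
    rw [hP.lin.edge]
    exact (H65.aeval_pen x v P).symm.trans ((h4 _).2 h2)
  obtain ⟨-, t, h8, h9⟩ := hP.tl
    (H32.cur_iff_rk.2 (le_antisymm (H32.rk_lt hP.prime.ne_zero h7) h6)) h7
  have h10 := h5.nu
  rw [H32.pt_edge] at h10
  rw [H32.dir_edge] at h9 h10
  set y := pt (edge (φ ∘ x) v s) t with hy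
  have h11 : grad m'.f y ⬝ᵥ (φ ∘ x - y) = 0 := by
    rw [show φ ∘ x - y = (s - t) • v by ext i; simp [hy, pt]; ring, dotProduct_smul, h9, smul_zero]
  obtain ⟨e, he⟩ := Function.ne_iff.1 h8.grad_ne
  have he' : grad m'.f y e ≠ 0 := he
  choose ν hν using fun j => H74.const_of_kil (C := K) (x := grad m'.f y j / grad m'.f y e)
    fun D => by
      obtain ⟨a, ha⟩ := dev_fix hd (on_hom hx φ) h8 h11 h9 h10 (D := D.restrictScalars C) (by
        rw [show dv (D.restrictScalars C) (φ ∘ x) = 0 from funext fun i => D.map_algebraMap _,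
          dotProduct_zero])
      rw [Derivation.leibniz_div, show D (grad m'.f y j) = _ from congrFun ha j,
        show D (grad m'.f y e) = _ from congrFun ha e]
      simp only [Pi.smul_apply, smul_eq_mul]
      ring
  have h12 : grad m'.f y = grad m'.f y e • (φ ∘ ν) := funext fun j => by
    simp [φ, hν, mul_div_cancel₀ _ he']
  have h13 := hψ.associated_of_dvd (H65.lin_prime (m := ν) fun e => h8.grad_ne (by
    rw [h12, e]; ext; simp)) ((h4 _).1 (by
      rw [h12, smul_dotProduct, smul_eq_mul, mul_eq_zero, or_iff_right he'] at h9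
      rw [H65.aeval_lin]; exact h9))
  refine ⟨B, _, _, ‹_›, φ, y, h8, h11, ?_, ?_, v, h9, h10⟩
  · obtain ⟨a, ha⟩ := h13.dvd
    have := H65.aeval_lin u ν
    rw [ha, map_mul, show aeval u ψ = 0 from h3, zero_mul] at this
    rw [h12, smul_dotProduct, dot_hom, show ν ⬝ᵥ u = 0 from this.symm, map_zero, smul_zero]
  · rw [pen_hom, h12]
    refine Dvd.dvd.trans ⟨MvPolynomial.C (grad m'.f y e)⁻¹, ?_⟩
      (map_dvd (MvPolynomial.map (φ : K →+* B)) (h13.symm.dvd.trans h2))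
    rw [show lin (grad m'.f y e • (φ ∘ ν)) = _ from H65.lin_mul _ _, mul_right_comm, ← map_mul,
      mul_inv_cancel₀ he']
    simp [lin]

/-- A tangent hyperplane through a generic point that contains a good direction. -/
theorem goodk (hP : TP m' P) (hd : Dev m'.f) (hb : ¬Bad m P) (r0 : ¬Tn m.f P) {q : ι → Ω}
    (hq : m.On q) : ∃ (B : Type) (_ : Field B) (_ : Algebra C B) (φ : Ω →ₐ[C] B) (u y : ι → B),
      m'.On y ∧ grad m'.f y ⬝ᵥ (φ ∘ q - y) = 0 ∧ grad m'.f y ⬝ᵥ u = 0 ∧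
      grad m.f (φ ∘ q) ⬝ᵥ u = 0 ∧ Hs m.f (φ ∘ q) u u ≠ 0 ∧ lin (grad m'.f y) ∣ pen (φ ∘ q) P ∧
      ∃ v, grad m'.f y ⬝ᵥ v = 0 ∧ grad m.f (φ ∘ q) ⬝ᵥ v ≠ 0 := by
  unfold Bad at hb
  push Not at hb
  obtain ⟨B0, _, _, q0, u0, h1, h2, h3, h4⟩ := hb
  obtain ⟨K, _, _, _, f1, f2, e⟩ := amalg (x1 := q) (x2 := q0) fun P => (hq P).trans (h1 P).symm
  have e' : f1 ∘ q = f2 ∘ q0 := funext e
  obtain ⟨B, _, _, -, φ, y, a1, a2, a3, a4, a5⟩ := hyp hP hd r0 (on_hom h1 f2) (u := f2 ∘ u0)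
    ((H65.map_ev f2 q0 u0 P).symm.trans (by rw [h3, map_zero]))
  have e2 : (φ.comp f1) ∘ q = φ ∘ f2 ∘ q0 := by rw [← e']; rfl
  refine ⟨B, _, _, φ.comp f1, φ ∘ f2 ∘ u0, y, a1, ?_⟩
  rw [e2]
  refine ⟨a2, a3, ?_, ?_, a4, a5⟩
  · rw [grad_hom, grad_hom, dot_hom, dot_hom, h2, map_zero, map_zero]
  · rwa [hs_hom, hs_hom, _root_.map_ne_zero, _root_.map_ne_zero]

end Pool.Agent.MP_249f74_an.H91
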